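import Pool.Agent.D0H34.KC.Stm

/-!
# Project KC, module 4 LOC: local conditions at `0` modulo `q`

`f` monic irreducible over `ℤ`, `q ∣ f(0)`, `q ∤ f'(0)`: Hensel's lemma gives a root `τ ∈ ℤ_[q]`, `‖τ‖ < 1`, and `F ≅ ℚ[x]/(f) → ℚ_[q]`, `θ ↦ τ`.  All `τ - a_i` are units;
an `ℓ`-th power relation between the `θ - a_i` becomes an `ℓ`-th power relation between the `-a_i` modulo `q`.
-/

set_option autoImplicit false

open Polynomial

namespace Pool.Agent.D0H16.KC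

/-- Hensel: a root `t` of `f` in `ℤ_[q]` of norm `< 1` -/
theorem henselRoot (f : ℤ[X]) (q : ℕ) [Fact q.Prime] (hq0 : (q : ℤ) ∣ f.eval 0)
    (hq1 : ¬ (q : ℤ) ∣ f.derivative.eval 0) :
    ∃ t : ℤ_[q], aeval t f = 0 ∧ ‖t‖ < 1 := by
  have h0 : aeval (0 : ℤ_[q]) f = ((f.eval 0 : ℤ) : ℤ_[q]) := by
    rw [← coeff_zero_eq_aeval_zero', coeff_zero_eq_eval_zero]
    simp
  have h1 : aeval (0 : ℤ_[q]) f.derivative = ((f.derivative.eval 0 : ℤ) : ℤ_[q]) := by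
    rw [← coeff_zero_eq_aeval_zero', coeff_zero_eq_eval_zero]
    simp
  have n0 : ‖aeval (0 : ℤ_[q]) f‖ < 1 := by
    rw [h0]
    exact (PadicInt.norm_int_lt_one_iff_dvd _).2 hq0
  have n1 : ‖aeval (0 : ℤ_[q]) f.derivative‖ = 1 := by
    rw [h1]
    apply le_antisymm (PadicInt.norm_le_one _)
    by_contra hlt
    exact hq1 ((PadicInt.norm_int_lt_one_iff_dvd _).1 (not_le.1 hlt))
  obtain ⟨t, ht0, ht1, -, -⟩ := hensels_lemma (p := q) (F := f) (a := (0 : ℤ_[q]))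
    (by rw [n1]; simpa using n0)
  refine ⟨t, ht0, ?_⟩
  rw [n1, sub_zero] at ht1
  exact ht1

/-- the embedding `F → K` sending `θ` to a root `τ` of `f` -/
theorem existsHom (F K : Type) [Field F] [CharZero F] [Field K] [CharZero K] (f : ℤ[X]) (θ : F) (τ : K)
    (hm : f.Monic) (hirr : Irreducible f) (hθ : aeval θ f = 0)
    (hall : ∀ y : F, ∃ P : ℚ[X], y = aeval θ P) (hτ : aeval τ f = 0) :
    ∃ φ : F →+* K, φ θ = τ := by
  have hQ : Irreducible (f.map (algebraMap ℤ ℚ)) :=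
    (Polynomial.Monic.irreducible_iff_irreducible_map_fraction_map hm).1 hirr
  have hm' : (f.map (algebraMap ℤ ℚ)).Monic := hm.map _
  have e1 : aeval θ (f.map (algebraMap ℤ ℚ)) = 0 := by rw [aeval_map_algebraMap]; exact hθ
  have e2 : aeval τ (f.map (algebraMap ℤ ℚ)) = 0 := by rw [aeval_map_algebraMap]; exact hτ
  have hmin : f.map (algebraMap ℤ ℚ) = minpoly ℚ θ := minpoly.eq_of_irreducible_of_monic hQ e1 hm'
  have hsurj : Function.Surjective ((aeval θ : ℚ[X] →ₐ[ℚ] F) : ℚ[X] →+* F) := by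
    intro y
    obtain ⟨P, hP⟩ := hall y
    exact ⟨P, hP.symm⟩
  have hker : RingHom.ker ((aeval θ : ℚ[X] →ₐ[ℚ] F) : ℚ[X] →+* F) ≤
      RingHom.ker ((aeval τ : ℚ[X] →ₐ[ℚ] K) : ℚ[X] →+* K) := by
    intro P hP
    rw [RingHom.mem_ker] at hP ⊢
    have hP' : aeval θ P = 0 := hP
    obtain ⟨R, rfl⟩ := (hmin ▸ minpoly.dvd ℚ θ hP' : f.map (algebraMap ℤ ℚ) ∣ P)
    show aeval τ (f.map (algebraMap ℤ ℚ) * R) = 0
    rw [map_mul, e2, zero_mul]
  refine ⟨(RingHom.liftOfSurjective _ hsurj) ⟨_, hker⟩, ?_⟩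
  have h := RingHom.liftOfRightInverse_comp_apply
    (((aeval θ : ℚ[X] →ₐ[ℚ] F) : ℚ[X] →+* F)) _ (Function.rightInverse_surjInv hsurj) ⟨_, hker⟩ X
  simpa using h

open Pool.Agent.D0H34.KC in
theorem t_LOC : S_LOC := by
  intro F _ _ f θ q k _ a hm hirr hθ hall hq0 hq1 ha ℓ e y hℓ hy
  obtain ⟨t, ht0, ht1⟩ := henselRoot f q hq0 hq1
  have hτ : aeval (t : ℚ_[q]) f = 0 := by
    have : aeval (algebraMap ℤ_[q] ℚ_[q] t) f = algebraMap ℤ_[q] ℚ_[q] (aeval t f) :=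
      aeval_algebraMap_apply _ _ _
    rw [ht0, map_zero] at this
    exact this
  obtain ⟨φ, hφ⟩ := existsHom F ℚ_[q] f θ (t : ℚ_[q]) hm hirr hθ hall hτ
  -- `t` reduces to `0`
  have htz : PadicInt.toZMod t = (0 : ZMod q) := by
    rw [← RingHom.mem_ker, PadicInt.ker_toZMod, IsLocalRing.mem_maximalIdeal]
    exact PadicInt.mem_nonunits.2 ht1
  have hred : ∀ i, PadicInt.toZMod (t - (a i : ℤ_[q])) = ((-a i : ℤ) : ZMod q) := by
    intro i
    rw [map_sub, htz, map_intCast]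
    push_cast
    ring
  have hne : ∀ i, ((-a i : ℤ) : ZMod q) ≠ 0 := by
    intro i h
    rw [ZMod.intCast_zmod_eq_zero_iff_dvd] at h
    exact ha i ((dvd_neg).1 h)
  have hunit : ∀ i, IsUnit (t - (a i : ℤ_[q])) := by
    intro i
    by_contra h
    have h2 : (t - (a i : ℤ_[q])) ∈ IsLocalRing.maximalIdeal ℤ_[q] :=
      (IsLocalRing.mem_maximalIdeal _).2 h
    rw [← PadicInt.ker_toZMod, RingHom.mem_ker, hred] at h2
    exact hne i h2
  choose u hu using hunit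
  -- the relation in `ℚ_[q]`
  have hrel : ∏ i, ((u i : ℤ_[q]) : ℚ_[q]) ^ e i = (φ y) ^ ℓ := by
    have := congrArg φ hy
    rw [map_prod, map_pow] at this
    rw [← this]
    refine Finset.prod_congr rfl fun i _ => ?_
    rw [map_zpow₀, map_sub, hφ, map_intCast, hu]
    push_cast
    rfl
  have hnu : ∀ i, ‖((u i : ℤ_[q]) : ℚ_[q])‖ = 1 := fun i => by
    have := PadicInt.norm_units (u i)
    rwa [PadicInt.norm_def] at this
  have hny : ‖φ y‖ = 1 := by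
    have h := congrArg norm hrel
    rw [norm_prod, norm_pow] at h
    have h1 : ∏ i, ‖((u i : ℤ_[q]) : ℚ_[q]) ^ e i‖ = 1 := by
      apply Finset.prod_eq_one
      intro i _
      rw [norm_zpow, hnu, one_zpow]
    rw [h1] at h
    exact (pow_eq_one_iff_of_nonneg (norm_nonneg _) (by omega)).1 h.symm
  set W : ℤ_[q]ˣ := PadicInt.mkUnits hny with hW
  have hWy : ((W : ℤ_[q]) : ℚ_[q]) = φ y := PadicInt.mkUnits_eq hny
  have hunits : ∏ i, (u i) ^ e i = W ^ ℓ := by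
    have hinj : Function.Injective (Units.map (algebraMap ℤ_[q] ℚ_[q] : ℤ_[q] →* ℚ_[q])) :=
      Units.map_injective (FaithfulSMul.algebraMap_injective ℤ_[q] ℚ_[q])
    apply hinj
    apply Units.ext
    rw [map_prod, map_pow, Units.coe_prod, Units.val_pow_eq_pow_val]
    have h1 : ∀ v : ℤ_[q]ˣ, ((Units.map (algebraMap ℤ_[q] ℚ_[q] : ℤ_[q] →* ℚ_[q]) v : ℚ_[q]ˣ) : ℚ_[q])
        = ((v : ℤ_[q]) : ℚ_[q]) := fun v => rfl
    rw [h1, hWy, ← hrel]
    refine Finset.prod_congr rfl fun i _ => ?_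
    rw [map_zpow, Units.val_zpow_eq_zpow_val, h1]
  refine ⟨((Units.map (PadicInt.toZMod : ℤ_[q] →+* ZMod q) : ℤ_[q]ˣ →* (ZMod q)ˣ) W : (ZMod q)ˣ), Units.ne_zero _, ?_⟩
  have h := congrArg (Units.map ((PadicInt.toZMod : ℤ_[q] →+* ZMod q) : ℤ_[q] →* ZMod q)) hunits
  rw [map_prod, map_pow] at h
  have h' := congrArg (fun v : (ZMod q)ˣ => (v : ZMod q)) h
  simp only [Units.coe_prod, Units.val_pow_eq_pow_val, map_zpow, Units.val_zpow_eq_zpow_val] at h'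
  rw [← h']
  refine Finset.prod_congr rfl fun i _ => ?_
  congr 1
  rw [← hred i, ← hu i]
  rfl

end Pool.Agent.D0H16.KC
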